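import Mathlib

set_option autoImplicit false

namespace Pool.Agent.Helper7.GaborOrbit

/-- There is no bijection between `ℤ` and `ℤ × ℤ` matching a translation invariant relation with
bounded (finite) differences on `ℤ`, containing a nonzero difference `d`, with a translation
invariant relation on `ℤ × ℤ`. -/
lemma comb (e : ℤ ≃ ℤ × ℤ) (B : Set ℤ) (A : Set (ℤ × ℤ)) (b : ℤ) (hb : ∀ n ∈ B, |n| ≤ b)
    (d : ℤ) (hd : 0 < d) (hdB : d ∈ B)
    (h : ∀ j k : ℤ, j - k ∈ B ↔ e j - e k ∈ A) : False := by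
  classical
  set G := AddSubgroup.closure A with hG
  -- every element of `G` moves labels by a bounded amount
  have hmove : ∀ γ ∈ G, ∃ L : ℤ, 0 ≤ L ∧ ∀ x : ℤ × ℤ, |e.symm (x + γ) - e.symm x| ≤ L := by
    intro γ hγ
    induction hγ using AddSubgroup.closure_induction with
    | mem a ha =>
      have key : ∀ x : ℤ × ℤ, |e.symm (x + a) - e.symm x| ≤ b := by
        intro x
        apply hb
        rw [h]
        simpa using ha
      exact ⟨b, (abs_nonneg _).trans (key 0), key⟩
    | zero => exact ⟨0, le_refl 0, fun x => by simp⟩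
    | add a c _ _ iha ihc =>
      obtain ⟨L, hL, h1⟩ := iha
      obtain ⟨L', hL', h2⟩ := ihc
      refine ⟨L + L', by positivity, fun x => ?_⟩
      have e1 : e.symm (x + (a + c)) - e.symm x
          = (e.symm ((x + a) + c) - e.symm (x + a)) + (e.symm (x + a) - e.symm x) := by
        rw [add_assoc]; ring
      rw [e1]
      calc _ ≤ |e.symm ((x + a) + c) - e.symm (x + a)| + |e.symm (x + a) - e.symm x| := abs_add_le _ _
      _ ≤ L + L' := by linarith [h1 x, h2 (x + a)]
    | neg a _ iha =>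
      obtain ⟨L, hL, h1⟩ := iha
      refine ⟨L, hL, fun x => ?_⟩
      have := h1 (x + -a)
      rw [neg_add_cancel_right] at this
      rwa [abs_sub_comm]
  -- cosets only depend on the label modulo `d`
  have hstep : ∀ j : ℤ, e (j + d) - e j ∈ G := by
    intro j
    apply AddSubgroup.subset_closure
    rw [← h]; simpa using hdB
  have hstep' : ∀ (q : ℤ) (j : ℤ), e (j + d * q) - e j ∈ G := by
    intro q
    induction q using Int.induction_on with
    | zero => intro j; simp [G.zero_mem]
    | succ q ih =>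
      intro j
      have h1 := ih (j + d)
      have h2 := hstep j
      have h3 := G.add_mem h1 h2
      have e1 : e (j + d * (q + 1)) - e j = e (j + d + d * q) - e (j + d) + (e (j + d) - e j) := by
        rw [show j + d * ((q:ℤ) + 1) = j + d + d * q by ring]; abel
      rw [e1]; exact h3
    | pred q ih =>
      intro j
      have h1 := ih (j - d)
      have h2 := hstep (j - d)
      rw [sub_add_cancel] at h2
      have h3 := G.sub_mem h1 h2
      have e1 : e (j + d * (-q - 1)) - e j
          = e (j - d + d * -q) - e (j - d) - (e j - e (j - d)) := by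
        rw [show j + d * (-(q:ℤ) - 1) = j - d + d * -q by ring]; abel
      rw [e1]; exact h3
  -- some positive multiple of any vector is in `G`
  have hfin : ∀ v : ℤ × ℤ, ∃ n : ℕ, 0 < n ∧ n • v ∈ G := by
    intro v
    have hmaps : ∀ i ∈ Finset.range (d.toNat + 1),
        (e.symm (i • v) % d) ∈ Finset.Ico (0:ℤ) d := by
      intro i _
      rw [Finset.mem_Ico]
      exact ⟨Int.emod_nonneg _ hd.ne', Int.emod_lt_of_pos _ hd⟩
    have hcard : (Finset.Ico (0:ℤ) d).card < (Finset.range (d.toNat + 1)).card := by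
      rw [Int.card_Ico, Finset.card_range]; omega
    obtain ⟨i, -, j, -, hij, heq⟩ := Finset.exists_ne_map_eq_of_card_lt_of_maps_to hcard hmaps
    have hmem : ∀ i j : ℕ, e.symm (i • v) % d = e.symm (j • v) % d → i • v - j • v ∈ G := by
      intro i j hij
      have h1 : e.symm (i • v) = e.symm (j • v) + d * (e.symm (i • v) / d - e.symm (j • v) / d) := by
        have h2 := Int.mul_ediv_add_emod (e.symm (i • v)) d
        have h3 := Int.mul_ediv_add_emod (e.symm (j • v)) d
        rw [hij] at h2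
        rw [mul_sub]; linarith
      have h4 := hstep' (e.symm (i • v) / d - e.symm (j • v) / d) (e.symm (j • v))
      rw [← h1] at h4
      simpa using h4
    rcases lt_or_gt_of_ne hij with hlt | hgt
    · refine ⟨j - i, by omega, ?_⟩
      rw [sub_nsmul _ hlt.le, ← sub_eq_add_neg]
      exact hmem j i heq.symm
    · refine ⟨i - j, by omega, ?_⟩
      rw [sub_nsmul _ hgt.le, ← sub_eq_add_neg]
      exact hmem i j heq
  obtain ⟨n1, hn1, hg1⟩ := hfin (1, 0)
  obtain ⟨n2, hn2, hg2⟩ := hfin (0, 1)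
  obtain ⟨L1, hL1, hm1⟩ := hmove _ hg1
  obtain ⟨L2, hL2, hm2⟩ := hmove _ hg2
  have hrep : ∀ (γ : ℤ × ℤ) (L : ℤ), (∀ x : ℤ × ℤ, |e.symm (x + γ) - e.symm x| ≤ L) →
      ∀ (i : ℕ) (x : ℤ × ℤ), |e.symm (x + i • γ) - e.symm x| ≤ i * L := by
    intro γ L hL i
    induction i with
    | zero => intro x; simp
    | succ i ih =>
      intro x
      have e1 : e.symm (x + (i + 1) • γ) - e.symm x
          = (e.symm ((x + γ) + i • γ) - e.symm (x + γ)) + (e.symm (x + γ) - e.symm x) := by
        rw [show x + (i + 1) • γ = (x + γ) + i • γ by rw [succ_nsmul]; abel]; ring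
      rw [e1]
      calc _ ≤ |e.symm ((x + γ) + i • γ) - e.symm (x + γ)| + |e.symm (x + γ) - e.symm x| :=
            abs_add_le _ _
      _ ≤ i * L + L := add_le_add (ih _) (hL _)
      _ = ((i + 1 : ℕ) : ℤ) * L := by push_cast; ring
  -- counting
  set L := L1 + L2 with hL
  have hL0 : 0 ≤ L := by positivity
  set m : ℕ := 2 * L.toNat + 2 with hm
  set s := Finset.range m ×ˢ Finset.range m with hs
  set F : ℕ × ℕ → ℤ := fun p => e.symm (p.1 • (n1 • ((1, 0) : ℤ × ℤ)) + p.2 • (n2 • ((0, 1) : ℤ × ℤ)))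
    with hF
  have hFinj : Set.InjOn F (s : Set (ℕ × ℕ)) := by
    rintro ⟨i, j⟩ - ⟨i', j'⟩ - hij
    have := e.symm.injective hij
    simp only [Prod.smul_mk, smul_zero, Prod.mk_add_mk, add_zero, zero_add, Prod.mk.injEq] at this
    obtain ⟨h1, h2⟩ := this
    simp only [nsmul_eq_mul, mul_one] at h1 h2
    have hn1' : (n1:ℤ) ≠ 0 := by positivity
    have hn2' : (n2:ℤ) ≠ 0 := by positivity
    have h3 := mul_right_cancel₀ hn1' h1
    have h4 := mul_right_cancel₀ hn2' h2
    ext
    · exact_mod_cast h3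
    · exact_mod_cast h4
  have hFmaps : ∀ p ∈ s, F p ∈ Finset.Icc (e.symm 0 - m * L) (e.symm 0 + m * L) := by
    rintro ⟨i, j⟩ hp
    rw [hs, Finset.mem_product, Finset.mem_range, Finset.mem_range] at hp
    have h1 := hrep _ _ hm1 i 0
    have h2 := hrep _ _ hm2 j (0 + i • (n1 • ((1, 0) : ℤ × ℤ)))
    rw [zero_add] at h1 h2
    have hi : (i:ℤ) ≤ m := by exact_mod_cast hp.1.le
    have hj : (j:ℤ) ≤ m := by exact_mod_cast hp.2.le
    have h3 : |F (i, j) - e.symm 0| ≤ m * L := by
      have e1 : F (i, j) - e.symm 0 = (F (i, j) - e.symm (i • (n1 • ((1, 0) : ℤ × ℤ))))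
        + (e.symm (i • (n1 • ((1, 0) : ℤ × ℤ))) - e.symm 0) := by ring
      rw [e1]
      calc _ ≤ |F (i, j) - e.symm (i • (n1 • ((1, 0) : ℤ × ℤ)))|
            + |e.symm (i • (n1 • ((1, 0) : ℤ × ℤ))) - e.symm 0| := abs_add_le _ _
      _ ≤ j * L2 + i * L1 := add_le_add h2 h1
      _ ≤ m * L2 + m * L1 := by gcongr
      _ = m * L := by rw [hL]; ring
    rw [abs_le] at h3
    rw [Finset.mem_Icc]
    constructor <;> linarith [h3.1, h3.2]
  have hcard := Finset.card_le_card_of_injOn F hFmaps hFinj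
  rw [hs, Finset.card_product, Finset.card_range, Int.card_Icc] at hcard
  have h5 : (m:ℤ) * m ≤ 2 * (m * L) + 1 := by
    have h6 : ((m * m : ℕ) : ℤ) ≤ ((e.symm 0 + m * L + 1 - (e.symm 0 - m * L)).toNat : ℤ) := by
      exact_mod_cast hcard
    have h7 : 0 ≤ (m:ℤ) * L := by positivity
    rw [Int.toNat_of_nonneg (by linarith)] at h6
    push_cast at h6
    linarith
  have h8 : (m:ℤ) = 2 * L + 2 := by
    rw [hm]; push_cast; rw [Int.toNat_of_nonneg hL0]
  nlinarith

end Pool.Agent.Helper7.GaborOrbit
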