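import Mathlib

set_option autoImplicit false

open MeasureTheory Filter

namespace Pool.Agent.Helper7.GaborOrbit

/-- The inner product `∫ f(x) conj(h(x)) dx`. -/
noncomputable def ip (f h : ℝ → ℂ) : ℂ := ∫ x : ℝ, f x * (starRingEnd ℂ) (h x)

/-- The norm of `L²(ℝ)`. -/
noncomputable def nrm (f : ℝ → ℂ) : ℝ := (eLpNorm f 2 (volume : Measure ℝ)).toReal

/-- `f` is square integrable on the real line. -/
def SqInt (f : ℝ → ℂ) : Prop := MemLp f 2 (volume : Measure ℝ)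

/-- The member `E_{mb} T_{na} g` of the Gabor system, for `v = (m, n)`, i.e. the function
`x ↦ exp(2 π i m b x) g(x - n a)`. -/
noncomputable def gabor (g : ℝ → ℂ) (a b : ℝ) (v : ℤ × ℤ) : ℝ → ℂ := fun x =>
  Complex.exp (2 * Real.pi * Complex.I * ((v.1 : ℝ) * b * x : ℝ)) * g (x - (v.2 : ℝ) * a)

/-- The family `F` (of square integrable functions) is a frame for `L²(ℝ)`. -/
def IsFrame (F : ℤ × ℤ → ℝ → ℂ) : Prop :=
  ∃ A B : ℝ, 0 < A ∧ 0 < B ∧ ∀ f : ℝ → ℂ, SqInt f →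
    Summable (fun v : ℤ × ℤ => ‖ip f (F v)‖ ^ 2) ∧
    A * nrm f ^ 2 ≤ ∑' v : ℤ × ℤ, ‖ip f (F v)‖ ^ 2 ∧
    ∑' v : ℤ × ℤ, ‖ip f (F v)‖ ^ 2 ≤ B * nrm f ^ 2

/-- The family `F` is a basis of `L²(ℝ)`: every square integrable `f` has exactly one expansion
`f = ∑ c v F v`, with unconditional convergence in `L²(ℝ)`. -/
def IsBasis (F : ℤ × ℤ → ℝ → ℂ) : Prop :=
  ∀ f : ℝ → ℂ, SqInt f → ∃! c : ℤ × ℤ → ℂ,
    Tendsto (fun s : Finset (ℤ × ℤ) => nrm (f - ∑ v ∈ s, c v • F v)) atTop (nhds 0)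

/-- Some ordering `f_k = F (e k)`, `k ∈ I`, of the family `F` has a bounded representation: for
some constant `K` one has `‖∑ c_k f_{k+1}‖ ≤ K ‖∑ c_k f_k‖` for all finite linear combinations,
that is, `T f_k = f_{k+1}` defines a bounded linear operator `T` on the span of the `f_k`. -/
def BoundedRep (I : Type) [Add I] [One I] (F : ℤ × ℤ → ℝ → ℂ) : Prop :=
  ∃ (e : I ≃ ℤ × ℤ) (K : ℝ), ∀ (s : Finset I) (c : I → ℂ),
    nrm (∑ k ∈ s, c k • F (e (k + 1))) ≤ K * nrm (∑ k ∈ s, c k • F (e k))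

end Pool.Agent.Helper7.GaborOrbit
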