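import Mathlib
import Pool.Agent.Helper7.GaborOrbit.Comb

set_option autoImplicit false

namespace Pool.Agent.Helper7.GaborOrbit

open scoped InnerProductSpace
open ContinuousLinearMap

/-- square summable families -/
noncomputable abbrev El (ι : Type) := lp (fun _ : ι => ℂ) 2

section general

variable {ι : Type}

open Classical in
/-- the unit vectors -/
noncomputable def dl (i : ι) : El ι := lp.single 2 i (1:ℂ)

lemma norm_dl (i : ι) : ‖(dl i : El ι)‖ = 1 := by
  classical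
  unfold dl
  rw [lp.norm_single (by norm_num)]; simp

lemma dl_ne_zero (i : ι) : (dl i : El ι) ≠ 0 := by
  rw [← norm_ne_zero_iff, norm_dl]; norm_num

lemma inner_dl_left (i : ι) (x : El ι) : ⟪dl i, x⟫_ℂ = x i := by
  classical
  unfold dl
  rw [lp.inner_single_left]; simp

lemma dl_apply_self (i : ι) : (dl i : El ι) i = 1 := by
  classical
  unfold dl
  rw [lp.single_apply_self]

lemma dl_apply_ne {i j : ι} (h : j ≠ i) : (dl i : El ι) j = 0 := by
  classical
  unfold dl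
  rw [lp.single_apply_ne _ _ _ h]

lemma hasSum_dl (x : El ι) : HasSum (fun i => x i • (dl i : El ι)) x := by
  classical
  have h := lp.hasSum_single (p := 2) (by norm_num) x
  convert h using 2 with i
  unfold dl
  rw [← lp.single_smul]; simp

/-- isometries permuting unit vectors up to phases -/
lemma exists_wop (σ : ι → ι) (hσ : Function.Injective σ) (θ : ι → ℂ) (hθ : ∀ i, ‖θ i‖ = 1) :
    ∃ W : El ι →ₗᵢ[ℂ] El ι, ∀ i, W (dl i) = θ i • dl (σ i) := by
  classical
  have hon : Orthonormal ℂ (fun i => θ i • (dl (σ i) : El ι)) := by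
    constructor
    · intro i
      rw [norm_smul, hθ, norm_dl, one_mul]
    · intro i j hij
      rw [inner_smul_left, inner_smul_right, inner_dl_left, dl_apply_ne (fun h => hij (hσ h))]
      simp
  refine ⟨hon.orthogonalFamily.linearIsometry, fun i => ?_⟩
  have : (dl i : El ι) = lp.single 2 i (1:ℂ) := rfl
  rw [this, OrthogonalFamily.linearIsometry_apply_single]
  simp

/-- the key identity for projections -/
lemma proj_key {E : Type*} [NormedAddCommGroup E] [InnerProductSpace ℂ E]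
    (M : Submodule ℂ E) [M.HasOrthogonalProjection] (W : E →ₗᵢ[ℂ] E)
    (hW : ∀ m ∈ M, W m ∈ M) (x : E) :
    ‖M.starProjection (W x) - W (M.starProjection x)‖ ^ 2
      = ‖M.starProjection (W x)‖ ^ 2 - ‖M.starProjection x‖ ^ 2 := by
  set a := M.starProjection (W x) with ha
  set y := M.starProjection x with hy
  have hyM : y ∈ M := M.starProjection_apply_mem x
  have h1 : ⟪a, W y⟫_ℂ = ⟪x, y⟫_ℂ := by
    rw [ha, M.inner_starProjection_left_eq_right, M.starProjection_eq_self_iff.2 (hW y hyM),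
      W.inner_map_map]
  have h2 : ⟪x, y⟫_ℂ = ⟪y, y⟫_ℂ := by
    have h3 : ⟪y, y⟫_ℂ = ⟪x, M.starProjection y⟫_ℂ := by
      conv_lhs => rw [hy]
      rw [M.inner_starProjection_left_eq_right]
    rw [h3, M.starProjection_eq_self_iff.2 hyM]
  have h5 : RCLike.re ⟪y, y⟫_ℂ = ‖y‖ ^ 2 := (norm_sq_eq_re_inner y).symm
  rw [@norm_sub_sq ℂ, h1, h2, W.norm_map, h5]; ring

lemma bound_extend {H : Type*} [NormedAddCommGroup H] [InnerProductSpace ℂ H]
    (D : El ι →L[ℂ] H) (F : ι → H) (hD : ∀ i, D (dl i) = F i)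
    (σ : ι → ι) (θ : ι → ℂ) (K : ℝ)
    (hK : ∀ (s : Finset ι) (c : ι → ℂ), ‖∑ i ∈ s, c i • θ i • F (σ i)‖ ≤ K * ‖∑ i ∈ s, c i • F i‖)
    (W : El ι →ₗᵢ[ℂ] El ι) (hW : ∀ i, W (dl i) = θ i • dl (σ i)) (x : El ι) :
    ‖D (W x)‖ ≤ K * ‖D x‖ := by
  have h1 := hasSum_dl x
  have h2 : HasSum (fun i => x i • F i) (D x) := by
    have := h1.mapL D
    simpa [hD] using this
  have h3 : HasSum (fun i => x i • θ i • F (σ i)) (D (W x)) := by
    have := (h1.mapL W.toContinuousLinearMap).mapL D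
    simpa [hD, hW] using this
  refine le_of_tendsto_of_tendsto' (h3.norm) ((h2.norm).const_mul K) (fun s => ?_)
  exact hK s x

end general


section plane

variable (M : Submodule ℂ (El (ℤ × ℤ))) [M.HasOrthogonalProjection]

/-- the kernel is invariant under phase-translations -/
def CovM : Prop :=
  ∀ v : ℤ × ℤ, ∃ (θ : ℤ × ℤ → ℂ) (W : El (ℤ × ℤ) →ₗᵢ[ℂ] El (ℤ × ℤ)), (∀ u, ‖θ u‖ = 1) ∧
    (∀ u, W (dl u) = θ u • dl (u + v)) ∧ ∀ m ∈ M, W m ∈ M

variable {M}

lemma norm_le_of_cov {W : El (ℤ × ℤ) →ₗᵢ[ℂ] El (ℤ × ℤ)} (hW : ∀ m ∈ M, W m ∈ M)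
    (x : El (ℤ × ℤ)) : ‖M.starProjection x‖ ≤ ‖M.starProjection (W x)‖ := by
  have h := proj_key M W hW x
  have h0 : 0 ≤ ‖M.starProjection (W x) - W (M.starProjection x)‖ ^ 2 := by positivity
  have h1 : ‖M.starProjection x‖ ^ 2 ≤ ‖M.starProjection (W x)‖ ^ 2 := by linarith
  exact (pow_le_pow_iff_left₀ (norm_nonneg _) (norm_nonneg _) (by norm_num)).1 h1

lemma eq_of_norm_le {W : El (ℤ × ℤ) →ₗᵢ[ℂ] El (ℤ × ℤ)} (hW : ∀ m ∈ M, W m ∈ M)
    (x : El (ℤ × ℤ)) (h : ‖M.starProjection (W x)‖ ≤ ‖M.starProjection x‖) :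
    M.starProjection (W x) = W (M.starProjection x) := by
  have h1 := proj_key M W hW x
  have h2 : ‖M.starProjection (W x)‖ ^ 2 ≤ ‖M.starProjection x‖ ^ 2 := by gcongr
  have h3 : ‖M.starProjection (W x) - W (M.starProjection x)‖ ^ 2 ≤ 0 := by linarith
  have h4 : ‖M.starProjection (W x) - W (M.starProjection x)‖ = 0 := by
    have := sq_nonneg ‖M.starProjection (W x) - W (M.starProjection x)‖
    have h5 : ‖M.starProjection (W x) - W (M.starProjection x)‖ ^ 2 = 0 := le_antisymm h3 this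
    exact pow_eq_zero_iff (two_ne_zero) |>.1 h5
  exact sub_eq_zero.1 (norm_eq_zero.1 h4)

lemma cov_norm_le (hM : CovM M) (u v : ℤ × ℤ) :
    ‖M.starProjection (dl u)‖ ≤ ‖M.starProjection (dl (u + v))‖ := by
  obtain ⟨θ, W, hθ, hW, hWM⟩ := hM v
  have := norm_le_of_cov hWM (dl u)
  rwa [hW, map_smul, norm_smul, hθ, one_mul] at this

lemma cov_norm (hM : CovM M) (u v : ℤ × ℤ) :
    ‖M.starProjection (dl u)‖ = ‖M.starProjection (dl v)‖ := by
  apply le_antisymm
  · have := cov_norm_le hM u (v - u)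
    simpa using this
  · have := cov_norm_le hM v (u - v)
    simpa using this

/-- the moduli of the matrix entries of the projection are translation invariant -/
lemma cov_entry (hM : CovM M) (u u' v : ℤ × ℤ) :
    ‖⟪M.starProjection (dl (u + v)), dl (u' + v)⟫_ℂ‖ = ‖⟪M.starProjection (dl u), dl u'⟫_ℂ‖ := by
  obtain ⟨θ, W, hθ, hW, hWM⟩ := hM v
  have h1 : M.starProjection (W (dl u)) = W (M.starProjection (dl u)) := by
    apply eq_of_norm_le hWM
    rw [hW, map_smul, norm_smul, hθ, one_mul, cov_norm hM (u + v) u]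
  have h2 : ⟪M.starProjection (W (dl u)), W (dl u')⟫_ℂ = ⟪M.starProjection (dl u), dl u'⟫_ℂ := by
    rw [h1, W.inner_map_map]
  rw [← h2, hW, hW, map_smul, inner_smul_left, inner_smul_right, norm_mul, norm_mul]
  simp [hθ]

/-- if the projection of a unit vector is a multiple of it, the kernel is trivial or contains
this unit vector -/
lemma end_game (hM : CovM M) (u0 : ℤ × ℤ)
    (h : ∀ v, v ≠ u0 → (M.starProjection (dl u0)) v = 0) : M = ⊥ ∨ dl u0 ∈ M := by
  set t : ℂ := (M.starProjection (dl u0)) u0 with ht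
  have h1 : M.starProjection (dl u0) = t • dl u0 := by
    ext v
    by_cases hv : v = u0
    · subst hv
      rw [lp.coeFn_smul, Pi.smul_apply, dl_apply_self]; simp [ht]
    · rw [h v hv, lp.coeFn_smul, Pi.smul_apply, dl_apply_ne hv]; simp
  by_cases ht0 : t = 0
  · left
    rw [ht0, zero_smul] at h1
    have hall : ∀ u, M.starProjection (dl u) = 0 := by
      intro u
      rw [← norm_eq_zero, cov_norm hM u u0, h1, norm_zero]
    rw [eq_bot_iff]
    intro x hx
    rw [Submodule.mem_bot]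
    ext u
    have : x u = ⟪dl u, x⟫_ℂ := (inner_dl_left u x).symm
    rw [this, ← M.starProjection_eq_self_iff.2 hx, ← M.inner_starProjection_left_eq_right, hall u]
    simp
  · right
    have h2 : dl u0 = t⁻¹ • M.starProjection (dl u0) := by
      rw [h1, smul_smul, inv_mul_cancel₀ ht0, one_smul]
    rw [h2]
    exact M.smul_mem _ (M.starProjection_apply_mem _)

lemma ext_dl {G : Type*} [NormedAddCommGroup G] [InnerProductSpace ℂ G] {ι : Type}
    (A B : El ι →L[ℂ] G) (h : ∀ i, A (dl i) = B (dl i)) : A = B := by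
  ext x
  have h1 := (hasSum_dl x).mapL A
  have h2 := (hasSum_dl x).mapL B
  simp only [map_smul] at h1 h2
  simp only [h] at h1
  exact h1.unique h2

/-- the case of a one-sided shift -/
lemma nat_case (hM : CovM M) (e : ℕ ≃ ℤ × ℤ) (R : El (ℤ × ℤ) →ₗᵢ[ℂ] El (ℤ × ℤ))
    (hR : ∀ k, R (dl (e k)) = dl (e (k + 1))) (hRM : ∀ m ∈ M, R m ∈ M) :
    M = ⊥ ∨ dl (e 0) ∈ M := by
  apply end_game hM
  intro v hv
  obtain ⟨k, rfl⟩ := e.surjective v
  have hk : k ≠ 0 := fun h => hv (by rw [h])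
  obtain ⟨k, rfl⟩ := Nat.exists_eq_succ_of_ne_zero hk
  have h1 : M.starProjection (R (dl (e k))) = R (M.starProjection (dl (e k))) := by
    apply eq_of_norm_le hRM
    rw [hR, cov_norm hM (e (k + 1)) (e k)]
  have h2 : ∀ y : El (ℤ × ℤ), ⟪dl (e 0), R y⟫_ℂ = 0 := by
    have h3 : (innerSL ℂ (dl (e 0))).comp R.toContinuousLinearMap = 0 := by
      apply ext_dl
      intro i
      obtain ⟨j, rfl⟩ := e.surjective i
      have : ⟪dl (e 0), (dl (e (j + 1)) : El (ℤ × ℤ))⟫_ℂ = 0 := by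
        rw [inner_dl_left, dl_apply_ne]
        intro h
        have := e.injective h
        omega
      simpa [hR] using this
    intro y
    have := congrArg (fun T => T y) h3
    simpa using this
  have h4 : ⟪dl (e 0), M.starProjection (dl (e (k + 1)))⟫_ℂ = 0 := by
    rw [← hR, h1]; exact h2 _
  have h5 : ⟪dl (e (k + 1)), M.starProjection (dl (e 0))⟫_ℂ = 0 := by
    rw [← M.inner_starProjection_left_eq_right, ← inner_conj_symm, h4]; simp
  rw [inner_dl_left] at h5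
  exact h5

/-- the case of a two-sided shift -/
lemma int_case (hM : CovM M) (e : ℤ ≃ ℤ × ℤ) (R : El (ℤ × ℤ) →ₗᵢ[ℂ] El (ℤ × ℤ))
    (hR : ∀ k, R (dl (e k)) = dl (e (k + 1))) (hRM : ∀ m ∈ M, R m ∈ M) :
    M = ⊥ ∨ dl (e 0) ∈ M := by
  apply end_game hM
  set c : ℤ → ℤ → ℂ := fun j k => ⟪M.starProjection (dl (e k)), dl (e j)⟫_ℂ with hc
  have hc1 : ∀ j k, c (j + 1) (k + 1) = c j k := by
    intro j k
    have h1 : M.starProjection (R (dl (e k))) = R (M.starProjection (dl (e k))) := by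
      apply eq_of_norm_le hRM
      rw [hR, cov_norm hM (e (k + 1)) (e k)]
    simp only [hc]
    rw [← hR, ← hR, h1, R.inner_map_map]
  have hcn : ∀ (n : ℤ) (j k : ℤ), c (j + n) (k + n) = c j k := by
    intro n
    induction n using Int.induction_on with
    | zero => intro j k; simp
    | succ n ih =>
      intro j k
      rw [← add_assoc, ← add_assoc, hc1]; exact ih j k
    | pred n ih =>
      intro j k
      rw [← ih j k, ← hc1 (j + (-(n:ℤ) - 1)) (k + (-(n:ℤ) - 1))]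
      congr 1 <;> ring
  have hc0 : ∀ j k, c j k = c (j - k) 0 := by
    intro j k
    have := hcn k (j - k) 0
    rw [sub_add_cancel, zero_add] at this
    exact this
  have hcoord : ∀ n, (M.starProjection (dl (e 0))) (e n) = (starRingEnd ℂ) (c n 0) := by
    intro n
    simp only [hc]
    rw [inner_conj_symm, inner_dl_left]
  have hcsymm : ∀ n, ‖c (-n) 0‖ = ‖c n 0‖ := by
    intro n
    have h1 : c (-n) 0 = c 0 n := by rw [hc0 0 n, zero_sub]
    have h2 : c 0 n = (starRingEnd ℂ) (c n 0) := by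
      simp only [hc]
      rw [inner_conj_symm, M.inner_starProjection_left_eq_right]
    rw [h1, h2, RCLike.norm_conj]
  intro v hv
  obtain ⟨d, rfl⟩ := e.surjective v
  have hd : d ≠ 0 := fun h => hv (by rw [h])
  rw [hcoord]
  by_contra hne
  have hne' : c d 0 ≠ 0 := fun h => hne (by rw [h]; simp)
  -- reduce to a positive difference
  obtain ⟨d, hd0, hdc⟩ : ∃ d : ℤ, 0 < d ∧ c d 0 ≠ 0 := by
    rcases lt_or_gt_of_ne hd with h | h
    · refine ⟨-d, by omega, ?_⟩
      rw [← norm_ne_zero_iff, hcsymm, norm_ne_zero_iff]; exact hne'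
    · exact ⟨d, h, hne'⟩
  set ε := ‖c d 0‖ with hε
  have hε0 : 0 < ε := norm_pos_iff.2 hdc
  set B : Set ℤ := {n | ε ≤ ‖c n 0‖} with hB
  have hBfin : B.Finite := by
    have hs : Summable (fun n : ℤ => ‖c n 0‖ ^ 2) := by
      have h1 : Summable (fun v : ℤ × ℤ => ‖(M.starProjection (dl (e 0))) v‖ ^ 2) := by
        have := (lp.memℓp (M.starProjection (dl (e 0)))).summable (by norm_num)
        simpa using this
      have h2 := (e.summable_iff).2 h1
      refine h2.congr (fun n => ?_)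
      simp only [Function.comp]
      rw [hcoord, RCLike.norm_conj]
    have ht := hs.tendsto_cofinite_zero
    have hev := ht.eventually (gt_mem_nhds (show (0:ℝ) < ε ^ 2 by positivity))
    rw [Filter.eventually_cofinite] at hev
    refine hev.subset (fun n hn => ?_)
    simp only [hB, Set.mem_ofPred_eq, not_lt] at hn ⊢
    gcongr
  obtain ⟨b, hb⟩ : ∃ b : ℤ, ∀ n ∈ B, |n| ≤ b := by
    obtain ⟨b, hb⟩ := (hBfin.image (fun n => |n|)).bddAbove
    exact ⟨b, fun n hn => hb ⟨n, hn, rfl⟩⟩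
  refine comb e B {v | ε ≤ ‖⟪M.starProjection (dl 0), (dl v : El (ℤ × ℤ))⟫_ℂ‖} b hb d hd0
    (by simp only [hB, Set.mem_ofPred_eq]; exact le_refl _) ?_
  intro j k
  simp only [hB, Set.mem_ofPred_eq]
  rw [← hc0]
  simp only [hc]
  have := cov_entry hM 0 (e j - e k) (e k)
  rw [zero_add, sub_add_cancel] at this
  rw [this]

end plane

section main

variable {H : Type*} [NormedAddCommGroup H] [InnerProductSpace ℂ H] [CompleteSpace H]

/-- covariance of a family in a Hilbert space, tested on finite sums -/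
def Cov (F : ℤ × ℤ → H) : Prop :=
  ∀ v : ℤ × ℤ, ∃ θ : ℤ × ℤ → ℂ, (∀ u, ‖θ u‖ = 1) ∧
    ∀ (s : Finset (ℤ × ℤ)) (c : ℤ × ℤ → ℂ),
      ‖∑ u ∈ s, c u • θ u • F (u + v)‖ ≤ ‖∑ u ∈ s, c u • F u‖

omit [CompleteSpace H] in
/-- the analysis operator -/
lemma exists_analysis {ι : Type} (F : ι → H) (B : ℝ)
    (hsum : ∀ x, Summable fun v => ‖⟪F v, x⟫_ℂ‖ ^ 2)
    (hup : ∀ x, ∑' v, ‖⟪F v, x⟫_ℂ‖ ^ 2 ≤ B * ‖x‖ ^ 2) :
    ∃ C : H →L[ℂ] El ι, (∀ x v, C x v = ⟪F v, x⟫_ℂ) ∧
      ∀ x, ‖C x‖ ^ 2 = ∑' v, ‖⟪F v, x⟫_ℂ‖ ^ 2 := by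
  have hmem : ∀ x, Memℓp (fun v => ⟪F v, x⟫_ℂ) 2 := by
    intro x
    apply memℓp_gen
    simpa using hsum x
  let C0 : H →ₗ[ℂ] El ι :=
    { toFun := fun x => ⟨fun v => ⟪F v, x⟫_ℂ, hmem x⟩
      map_add' := fun x y => Subtype.ext (funext fun v => inner_add_right _ _ _)
      map_smul' := fun a x => Subtype.ext (funext fun v => inner_smul_right _ _ _) }
  have hnorm : ∀ x, ‖C0 x‖ ^ 2 = ∑' v, ‖⟪F v, x⟫_ℂ‖ ^ 2 := by
    intro x
    have h1 := lp.norm_rpow_eq_tsum (p := 2) (by norm_num) (C0 x)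
    have h2 : ∀ v, (C0 x : ι → ℂ) v = ⟪F v, x⟫_ℂ := fun v => rfl
    simp only [h2] at h1
    simpa using h1
  refine ⟨C0.mkContinuous (Real.sqrt (max B 0)) ?_, fun x v => rfl, hnorm⟩
  intro x
  have h1 := hnorm x
  have h2 := hup x
  have h3 : ‖C0 x‖ ^ 2 ≤ (Real.sqrt (max B 0) * ‖x‖) ^ 2 := by
    rw [mul_pow, Real.sq_sqrt (le_max_right _ _), h1]
    refine h2.trans ?_
    gcongr
    exact le_max_left _ _
  exact (pow_le_pow_iff_left₀ (norm_nonneg _) (by positivity) (by norm_num)).1 h3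

lemma adj_dl {ι : Type} (F : ι → H) (C : H →L[ℂ] El ι) (hC : ∀ x v, C x v = ⟪F v, x⟫_ℂ) (v : ι) :
    (ContinuousLinearMap.adjoint C) (dl v) = F v := by
  apply ext_inner_right ℂ
  intro x
  rw [ContinuousLinearMap.adjoint_inner_left, inner_dl_left, hC]

omit [CompleteSpace H] in
lemma finset_reindex {I : Type} {ι : Type} (e : I ≃ ι) (F : ι → H) (σ : ι → ι) (τ : I → I)
    (hσ : ∀ k, σ (e k) = e (τ k)) (K : ℝ)
    (hK : ∀ (s : Finset I) (c : I → ℂ),
      ‖∑ k ∈ s, c k • F (e (τ k))‖ ≤ K * ‖∑ k ∈ s, c k • F (e k)‖)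
    (s : Finset ι) (c : ι → ℂ) :
    ‖∑ i ∈ s, c i • (1:ℂ) • F (σ i)‖ ≤ K * ‖∑ i ∈ s, c i • F i‖ := by
  classical
  have h := hK (s.map e.symm.toEmbedding) (fun k => c (e k))
  rw [Finset.sum_map, Finset.sum_map] at h
  simpa [← hσ] using h

/-- The abstract theorem. -/
theorem abstract_main [Nontrivial H] (F : ℤ × ℤ → H) (A B : ℝ) (hA : 0 < A)
    (hsum : ∀ x, Summable fun v => ‖⟪F v, x⟫_ℂ‖ ^ 2)
    (hlow : ∀ x, A * ‖x‖ ^ 2 ≤ ∑' v, ‖⟪F v, x⟫_ℂ‖ ^ 2)
    (hup : ∀ x, ∑' v, ‖⟪F v, x⟫_ℂ‖ ^ 2 ≤ B * ‖x‖ ^ 2)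
    (hcov : Cov F)
    (hrep : (∃ (e : ℕ ≃ ℤ × ℤ) (K : ℝ), ∀ (s : Finset ℕ) (c : ℕ → ℂ),
        ‖∑ k ∈ s, c k • F (e (k + 1))‖ ≤ K * ‖∑ k ∈ s, c k • F (e k)‖) ∨
      (∃ (e : ℤ ≃ ℤ × ℤ) (K : ℝ), ∀ (s : Finset ℤ) (c : ℤ → ℂ),
        ‖∑ k ∈ s, c k • F (e (k + 1))‖ ≤ K * ‖∑ k ∈ s, c k • F (e k)‖)) :
    ∀ x, ∃! c : ℤ × ℤ → ℂ, HasSum (fun v => c v • F v) x := by
  classical
  obtain ⟨C, hC, hCn⟩ := exists_analysis F B hsum hup
  set D := ContinuousLinearMap.adjoint C with hDdef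
  have hD : ∀ v, D (dl v) = F v := adj_dl F C hC
  set M : Submodule ℂ (El (ℤ × ℤ)) := LinearMap.ker (D : El (ℤ × ℤ) →ₗ[ℂ] H) with hM
  have hMmem : ∀ x, x ∈ M ↔ D x = 0 := fun x => by rw [hM, LinearMap.mem_ker]; rfl
  have hMclosed : IsClosed (M : Set (El (ℤ × ℤ))) := by
    have : (M : Set (El (ℤ × ℤ))) = D ⁻¹' {0} := by
      ext x; simp [hMmem]
    rw [this]
    exact isClosed_singleton.preimage D.continuous
  have : CompleteSpace M := hMclosed.completeSpace_coe
  have hinv : ∀ (σ : ℤ × ℤ → ℤ × ℤ) (θ : ℤ × ℤ → ℂ) (K : ℝ),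
      (∀ (s : Finset (ℤ × ℤ)) (c : ℤ × ℤ → ℂ),
        ‖∑ i ∈ s, c i • θ i • F (σ i)‖ ≤ K * ‖∑ i ∈ s, c i • F i‖) →
      ∀ W : El (ℤ × ℤ) →ₗᵢ[ℂ] El (ℤ × ℤ), (∀ i, W (dl i) = θ i • dl (σ i)) →
        ∀ m ∈ M, W m ∈ M := by
    intro σ θ K hK W hW m hm
    rw [hMmem] at hm ⊢
    have := bound_extend D F hD σ θ K hK W hW m
    rw [hm, norm_zero, mul_zero] at this
    exact norm_le_zero_iff.1 this
  have hcovM : CovM M := by
    intro v
    obtain ⟨θ, hθ, hle⟩ := hcov v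
    obtain ⟨W, hW⟩ := exists_wop (fun u => u + v) (add_left_injective v) θ hθ
    exact ⟨θ, W, hθ, hW, hinv _ θ 1 (fun s c => by rw [one_mul]; exact hle s c) W hW⟩
  -- `F` has no zero
  have hF0 : ∀ u, F u ≠ 0 := by
    intro u hu
    have hall : ∀ w, F w = 0 := by
      intro w
      obtain ⟨θ, hθ, hle⟩ := hcov (w - u)
      have h1 := hle {u} (fun _ => 1)
      simp only [Finset.sum_singleton, one_smul, hu, norm_zero, add_sub_cancel, norm_smul, hθ,
        one_mul] at h1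
      exact norm_le_zero_iff.1 h1
    obtain ⟨x, hx⟩ := exists_ne (0 : H)
    have h1 := hlow x
    simp only [hall, inner_zero_left, norm_zero] at h1
    have h2 : 0 < A * ‖x‖ ^ 2 := by
      have := norm_pos_iff.2 hx
      positivity
    norm_num at h1
    linarith
  have hbot : M = ⊥ := by
    rcases hrep with ⟨e, K, hK⟩ | ⟨e, K, hK⟩
    · obtain ⟨W, hW⟩ := exists_wop (fun u : ℤ × ℤ => e (e.symm u + 1))
        (fun a b hab => by simpa using hab) (fun _ => (1:ℂ)) (by simp)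
      have h := nat_case hcovM e W (fun k => by rw [hW]; simp)
        (hinv (fun u : ℤ × ℤ => e (e.symm u + 1)) (fun _ => 1) K
          (finset_reindex e F _ (fun k => k + 1) (fun k => by simp) K hK) W hW)
      rcases h with h | h
      · exact h
      · exfalso
        rw [hMmem, hD] at h
        exact hF0 _ h
    · obtain ⟨W, hW⟩ := exists_wop (fun u : ℤ × ℤ => e (e.symm u + 1))
        (fun a b hab => by simpa using hab) (fun _ => (1:ℂ)) (by simp)
      have h := int_case hcovM e W (fun k => by rw [hW]; simp)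
        (hinv (fun u : ℤ × ℤ => e (e.symm u + 1)) (fun _ => 1) K
          (finset_reindex e F _ (fun k => k + 1) (fun k => by simp) K hK) W hW)
      rcases h with h | h
      · exact h
      · exfalso
        rw [hMmem, hD] at h
        exact hF0 _ h
  -- `C` is bijective
  have hCbelow : ∀ x, Real.sqrt A * ‖x‖ ≤ ‖C x‖ := by
    intro x
    have h1 : (Real.sqrt A * ‖x‖) ^ 2 ≤ ‖C x‖ ^ 2 := by
      rw [mul_pow, Real.sq_sqrt hA.le, hCn]; exact hlow x
    exact (pow_le_pow_iff_left₀ (by positivity) (norm_nonneg _) (by norm_num)).1 h1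
  have hsA : 0 < Real.sqrt A := Real.sqrt_pos.2 hA
  have hanti : AntilipschitzWith (Real.toNNReal (Real.sqrt A)⁻¹) C := by
    apply ContinuousLinearMap.antilipschitz_of_bound
    intro x
    rw [Real.coe_toNNReal _ (by positivity)]
    rw [inv_mul_eq_div, le_div_iff₀ hsA, mul_comm]
    exact hCbelow x
  have hCinj : Function.Injective C := hanti.injective
  have hCcl : IsClosed (Set.range C) := hanti.isClosed_range C.uniformContinuous
  have hCsurj : Function.Surjective C := by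
    have h1 : (LinearMap.range (C : H →ₗ[ℂ] El (ℤ × ℤ)))ᗮ = ⊥ := by
      rw [eq_bot_iff]
      intro y hy
      rw [← hbot, hMmem]
      apply ext_inner_right ℂ
      intro x
      rw [hDdef, ContinuousLinearMap.adjoint_inner_left, inner_zero_left]
      rw [Submodule.mem_orthogonal] at hy
      rw [← inner_conj_symm, hy (C x) ⟨x, rfl⟩]; simp
    have h2 : IsClosed ((LinearMap.range (C : H →ₗ[ℂ] El (ℤ × ℤ)) : Submodule ℂ (El (ℤ × ℤ)))
        : Set (El (ℤ × ℤ))) := by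
      have : ((LinearMap.range (C : H →ₗ[ℂ] El (ℤ × ℤ)) : Submodule ℂ (El (ℤ × ℤ)))
        : Set (El (ℤ × ℤ))) = Set.range C := by
        ext y; simp
      rw [this]; exact hCcl
    have h3 : LinearMap.range (C : H →ₗ[ℂ] El (ℤ × ℤ)) = ⊤ := by
      have h4 : CompleteSpace (LinearMap.range (C : H →ₗ[ℂ] El (ℤ × ℤ))) := h2.completeSpace_coe
      exact (Submodule.orthogonal_eq_bot_iff).1 h1
    intro y
    have : y ∈ LinearMap.range (C : H →ₗ[ℂ] El (ℤ × ℤ)) := by rw [h3]; trivial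
    obtain ⟨x, hx⟩ := this
    exact ⟨x, hx⟩
  obtain ⟨Ce, hCe⟩ : ∃ Ce : H ≃L[ℂ] El (ℤ × ℤ), ∀ x, Ce x = C x := by
    refine ⟨ContinuousLinearEquiv.ofBijective C (LinearMap.ker_eq_bot.2 hCinj)
      (LinearMap.range_eq_top.2 hCsurj), fun x => rfl⟩
  intro x
  set G : ℤ × ℤ → H := fun v => Ce.symm (dl v) with hG
  have hbi : ∀ u v, ⟪G v, F u⟫_ℂ = if u = v then 1 else 0 := by
    intro u v
    have h1 : ⟪F u, G v⟫_ℂ = (dl v : El (ℤ × ℤ)) u := by
      rw [← hC, ← hCe, hG]; simp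
    rw [← inner_conj_symm, h1]
    split_ifs with h
    · subst h; rw [dl_apply_self]; simp
    · rw [dl_apply_ne h]; simp
  have huniq : ∀ c : ℤ × ℤ → ℂ, HasSum (fun v => c v • F v) x → ∀ v, c v = ⟪G v, x⟫_ℂ := by
    intro c hc v
    have h1 := hc.mapL (innerSL ℂ (G v))
    simp only [innerSL_apply_apply, inner_smul_right, hbi] at h1
    have h2 : HasSum (fun u => c u * (if u = v then (1:ℂ) else 0)) (c v) := by
      convert hasSum_ite_eq v (c v) using 2 with u
      split_ifs with h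
      · subst h; simp
      · simp
    exact h2.unique h1
  refine ⟨fun v => ((ContinuousLinearMap.adjoint (Ce.symm : El (ℤ × ℤ) →L[ℂ] H)) x) v, ?_, ?_⟩
  · set y := (ContinuousLinearMap.adjoint (Ce.symm : El (ℤ × ℤ) →L[ℂ] H)) x with hy
    have h1 : D y = x := by
      apply ext_inner_right ℂ
      intro z
      rw [hDdef, ContinuousLinearMap.adjoint_inner_left, hy, ContinuousLinearMap.adjoint_inner_left]
      rw [← hCe]; simp
    have h2 := (hasSum_dl y).mapL D
    simp only [map_smul, hD, h1] at h2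
    exact h2
  · intro c hc
    funext v
    rw [huniq c hc v]
    rw [← inner_dl_left, ContinuousLinearMap.adjoint_inner_right]
    rfl

end main

end Pool.Agent.Helper7.GaborOrbit
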