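import Mathlib
import Pool.Agent.Helper7.GaborOrbit.Defs
import Pool.Agent.Helper7.GaborOrbit.Hilbert

set_option autoImplicit false

open MeasureTheory Filter
open scoped InnerProductSpace

namespace Pool.Agent.Helper7.GaborOrbit

/-- the Hilbert space -/
noncomputable abbrev HH : Type := Lp ℂ 2 (volume : Measure ℝ)

lemma nrm_eq {f : ℝ → ℂ} (hf : MemLp f 2 (volume : Measure ℝ)) : ‖hf.toLp f‖ = nrm f := by
  rw [Lp.norm_toLp]; rfl

lemma inner_eq_ip {f h : ℝ → ℂ} (hf : MemLp f 2 (volume : Measure ℝ))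
    (hh : MemLp h 2 (volume : Measure ℝ)) : ⟪hh.toLp h, hf.toLp f⟫_ℂ = ip f h := by
  rw [L2.inner_def, ip]
  apply integral_congr_ae
  filter_upwards [hf.coeFn_toLp, hh.coeFn_toLp] with x h1 h2
  rw [h1, h2]
  simp

lemma sum_toLp {ι : Type} (f : ι → ℝ → ℂ) (hf : ∀ i, MemLp (f i) 2 (volume : Measure ℝ))
    (s : Finset ι) (c : ι → ℂ) :
    ∃ h : MemLp (∑ i ∈ s, c i • f i) 2 (volume : Measure ℝ),
      h.toLp (∑ i ∈ s, c i • f i) = ∑ i ∈ s, c i • (hf i).toLp (f i) := by
  classical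
  induction s using Finset.induction_on with
  | empty =>
    refine ⟨by simp, ?_⟩
    simp
  | insert a s ha ih =>
    obtain ⟨h, he⟩ := ih
    have h1 : MemLp (c a • f a) 2 (volume : Measure ℝ) := (hf a).const_smul (c a)
    have h2 : ∑ i ∈ insert a s, c i • f i = c a • f a + ∑ i ∈ s, c i • f i :=
      Finset.sum_insert ha
    rw [h2, Finset.sum_insert ha]
    exact ⟨h1.add h, by rw [MemLp.toLp_add h1 h, MemLp.toLp_const_smul, he]⟩

lemma sum_nrm {ι : Type} (f : ι → ℝ → ℂ) (hf : ∀ i, MemLp (f i) 2 (volume : Measure ℝ))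
    (s : Finset ι) (c : ι → ℂ) :
    ‖∑ i ∈ s, c i • (hf i).toLp (f i)‖ = nrm (∑ i ∈ s, c i • f i) := by
  obtain ⟨h, he⟩ := sum_toLp f hf s c
  rw [← he, nrm_eq]

lemma norm_phase (t : ℝ) : ‖Complex.exp (2 * Real.pi * Complex.I * (t : ℝ))‖ = 1 := by
  have : (2 * Real.pi * Complex.I * (t : ℝ) : ℂ) = ((2 * Real.pi * t : ℝ) : ℂ) * Complex.I := by
    push_cast; ring
  rw [this, Complex.norm_exp_ofReal_mul_I]

/-- modulation and translation preserve the norm -/
lemma nrm_modtrans {h : ℝ → ℂ} (hh : MemLp h 2 (volume : Measure ℝ)) (β t : ℝ) :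
    nrm (fun x => Complex.exp (2 * Real.pi * Complex.I * (β * x : ℝ)) * h (x - t)) = nrm h := by
  unfold nrm
  have h1 : eLpNorm (fun x => Complex.exp (2 * Real.pi * Complex.I * (β * x : ℝ)) * h (x - t)) 2
      (volume : Measure ℝ) = eLpNorm (fun x => h (x - t)) 2 (volume : Measure ℝ) := by
    apply eLpNorm_congr_norm_ae
    filter_upwards with x
    rw [norm_mul, norm_phase, one_mul]
  rw [h1]
  have h2 := eLpNorm_comp_measurePreserving (p := 2) hh.aestronglyMeasurable
    (measurePreserving_sub_right (volume : Measure ℝ) t)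
  have h3 : (h ∘ fun x => x - t) = fun x => h (x - t) := rfl
  rw [h3] at h2
  rw [h2]

lemma memLp_gabor {g : ℝ → ℂ} (hg : MemLp g 2 (volume : Measure ℝ)) (a b : ℝ) (v : ℤ × ℤ) :
    MemLp (gabor g a b v) 2 (volume : Measure ℝ) := by
  have h1 : MemLp (fun x => g (x - (v.2:ℝ) * a)) 2 (volume : Measure ℝ) :=
    hg.comp_measurePreserving (measurePreserving_sub_right (volume : Measure ℝ) ((v.2:ℝ) * a))
  have hc : Continuous (fun x : ℝ =>
      Complex.exp (2 * Real.pi * Complex.I * ((v.1 : ℝ) * b * x : ℝ))) := by fun_prop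
  refine MemLp.of_le h1 (hc.aestronglyMeasurable.mul h1.aestronglyMeasurable) ?_
  filter_upwards with x
  rw [gabor, norm_mul, norm_phase, one_mul]

lemma gabor_cov {g : ℝ → ℂ} (hg : MemLp g 2 (volume : Measure ℝ)) (a b : ℝ) :
    Cov (fun v => (memLp_gabor hg a b v).toLp (gabor g a b v)) := by
  intro v
  refine ⟨fun u => Complex.exp (2 * Real.pi * Complex.I * (-((u.1:ℝ) * b * (v.2 * a)) : ℝ)),
    fun u => norm_phase _, fun s c => ?_⟩
  have e1 : ∀ u : ℤ × ℤ, ∀ x : ℝ,
      Complex.exp (2 * Real.pi * Complex.I * (-((u.1:ℝ) * b * (v.2 * a)) : ℝ))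
        * gabor g a b (u + v) x
      = Complex.exp (2 * Real.pi * Complex.I * ((v.1:ℝ) * b * x : ℝ))
        * gabor g a b u (x - (v.2:ℝ) * a) := by
    intro u x
    simp only [gabor, Prod.fst_add, Prod.snd_add]
    have hx : x - ((u.2 + v.2 : ℤ) : ℝ) * a = x - (v.2:ℝ) * a - (u.2:ℝ) * a := by push_cast; ring
    have he : (2 * Real.pi * Complex.I * (-((u.1:ℝ) * b * (v.2 * a)) : ℝ) : ℂ)
        + 2 * Real.pi * Complex.I * (((u.1 + v.1 : ℤ) : ℝ) * b * x : ℝ)
        = 2 * Real.pi * Complex.I * ((v.1:ℝ) * b * x : ℝ)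
        + 2 * Real.pi * Complex.I * ((u.1:ℝ) * b * (x - (v.2:ℝ) * a) : ℝ) := by
      push_cast; ring
    have he' := congrArg Complex.exp he
    rw [Complex.exp_add, Complex.exp_add] at he'
    rw [hx, ← mul_assoc, he']
    exact mul_assoc _ _ _
  have h1 : ‖∑ u ∈ s, c u • (Complex.exp (2 * Real.pi * Complex.I *
        (-((u.1:ℝ) * b * (v.2 * a)) : ℝ))) • (memLp_gabor hg a b (u + v)).toLp
          (gabor g a b (u + v))‖
      = nrm (∑ u ∈ s, (c u * Complex.exp (2 * Real.pi * Complex.I *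
        (-((u.1:ℝ) * b * (v.2 * a)) : ℝ))) • gabor g a b (u + v)) := by
    rw [← sum_nrm (fun u => gabor g a b (u + v)) (fun u => memLp_gabor hg a b (u + v))]
    simp only [smul_smul]
  obtain ⟨h2, -⟩ := sum_toLp (gabor g a b) (memLp_gabor hg a b) s c
  have h3 := nrm_modtrans h2 ((v.1:ℝ) * b) ((v.2:ℝ) * a)
  have h4 : (∑ u ∈ s, (c u * Complex.exp (2 * Real.pi * Complex.I *
        (-((u.1:ℝ) * b * (v.2 * a)) : ℝ))) • gabor g a b (u + v))
      = fun x => Complex.exp (2 * Real.pi * Complex.I * ((v.1:ℝ) * b * x : ℝ))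
          * (∑ u ∈ s, c u • gabor g a b u) (x - (v.2:ℝ) * a) := by
    funext x
    simp only [Finset.sum_apply, Pi.smul_apply, smul_eq_mul, Finset.mul_sum]
    apply Finset.sum_congr rfl
    intro u _
    rw [mul_assoc, e1 u x]; ring
  rw [h1, h4, h3, sum_nrm (gabor g a b) (memLp_gabor hg a b)]

lemma nontrivial_HH : Nontrivial HH := by
  refine ⟨⟨indicatorConstLp 2 (measurableSet_Icc (a := (0:ℝ)) (b := 1)) (by simp) (1:ℂ), 0, ?_⟩⟩
  intro h
  have h1 := norm_indicatorConstLp (μ := (volume : Measure ℝ)) (p := 2)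
    (hs := measurableSet_Icc (a := (0:ℝ)) (b := 1)) (hμs := by simp) (c := (1:ℂ)) (by norm_num)
    (by norm_num)
  rw [h, norm_zero] at h1
  simp at h1

theorem main (g : ℝ → ℂ) (a b : ℝ) (hg : SqInt g) (hframe : IsFrame (gabor g a b))
    (hover : ¬ IsBasis (gabor g a b)) :
    ¬ BoundedRep ℕ (gabor g a b) ∧ ¬ BoundedRep ℤ (gabor g a b) := by
  have hnt := nontrivial_HH
  have hmem := memLp_gabor (g := g) hg a b
  obtain ⟨A, B, hA, hB, hfr⟩ := hframe
  have hin : ∀ (x : HH) (v : ℤ × ℤ), ⟪(hmem v).toLp (gabor g a b v), x⟫_ℂ = ip x (gabor g a b v) := by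
    intro x v
    rw [← inner_eq_ip (Lp.memLp x) (hmem v), Lp.toLp_coeFn]
  have hnx : ∀ x : HH, ‖x‖ = nrm x := by
    intro x
    rw [← nrm_eq (Lp.memLp x), Lp.toLp_coeFn]
  have key : ¬ (BoundedRep ℕ (gabor g a b) ∨ BoundedRep ℤ (gabor g a b)) := by
    intro hrep
    apply hover
    have habs := abstract_main (H := HH) (fun v => (hmem v).toLp (gabor g a b v)) A B hA
      (fun x => by
        simp only [hin]; exact (hfr x (Lp.memLp x)).1)
      (fun x => by
        simp only [hin]; rw [hnx]; exact (hfr x (Lp.memLp x)).2.1)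
      (fun x => by
        simp only [hin]; rw [hnx]; exact (hfr x (Lp.memLp x)).2.2)
      (gabor_cov hg a b)
      (by
        rcases hrep with ⟨e, K, hK⟩ | ⟨e, K, hK⟩
        · left
          refine ⟨e, K, fun s c => ?_⟩
          rw [sum_nrm (fun k => gabor g a b (e (k + 1))) (fun k => hmem (e (k + 1))),
            sum_nrm (fun k => gabor g a b (e k)) (fun k => hmem (e k))]
          exact hK s c
        · right
          refine ⟨e, K, fun s c => ?_⟩
          rw [sum_nrm (fun k => gabor g a b (e (k + 1))) (fun k => hmem (e (k + 1))),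
            sum_nrm (fun k => gabor g a b (e k)) (fun k => hmem (e k))]
          exact hK s c)
    intro f hf0
    have hf : MemLp f 2 (volume : Measure ℝ) := hf0
    have hiff : ∀ c : ℤ × ℤ → ℂ,
        HasSum (fun v => c v • (hmem v).toLp (gabor g a b v)) (MemLp.toLp f hf) ↔
        Tendsto (fun s : Finset (ℤ × ℤ) => nrm (f - ∑ v ∈ s, c v • gabor g a b v)) atTop
          (nhds 0) := by
      intro c
      unfold HasSum
      simp only [SummationFilter.unconditional_filter]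
      rw [tendsto_iff_norm_sub_tendsto_zero]
      have : ∀ s : Finset (ℤ × ℤ),
          ‖∑ v ∈ s, c v • (hmem v).toLp (gabor g a b v) - MemLp.toLp f hf‖
          = nrm (f - ∑ v ∈ s, c v • gabor g a b v) := by
        intro s
        obtain ⟨h, he⟩ := sum_toLp (gabor g a b) hmem s c
        rw [← he, norm_sub_rev, ← MemLp.toLp_sub, nrm_eq]
      simp only [this]
    obtain ⟨c, hc, hu⟩ := habs (MemLp.toLp f hf)
    exact ⟨c, (hiff c).1 hc, fun c' hc' => hu c' ((hiff c').2 hc')⟩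
  exact not_or.1 key

end Pool.Agent.Helper7.GaborOrbit
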